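import Pool.Agent.W973.CES.Defs

/-! Basic facts on the lists of the reduction. -/

set_option autoImplicit false

namespace Pool.Agent.W15.CES

open Pool.Agent.W973.CES Pool.Agent.NPC

theorem n3_eq (φ : CNF) : n3 φ = 3 * φ.length := by
  unfold n3 flat
  rw [List.length_flatMap]
  simp only [List.length_cons, List.length_nil, List.map_const', List.sum_replicate,
    smul_eq_mul]
  omega

theorem vr_mem (φ : CNF) (i : ℕ) (hi : i < n3 φ) : n3 φ ≤ vr φ i ∧ vr φ i < 2 * n3 φ := by
  unfold vr gv
  refine ⟨Nat.le_add_right _ _, ?_⟩
  have h1 : lit φ i ∈ flat φ := by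
    unfold lit
    rw [List.getD_eq_getElem (flat φ) (true, 0) hi]
    exact List.getElem_mem hi
  have h2 : (lit φ i).2 ∈ (flat φ).map Prod.snd := List.mem_map_of_mem h1
  have h3 := List.idxOf_lt_length_of_mem h2
  rw [List.length_map] at h3
  have h4 : (flat φ).length = n3 φ := rfl
  omega

theorem occ_mem (φ : CNF) (g : ℕ) (s : Bool) (y : ℕ) (hy : y ∈ occ φ g s) :
    ∃ i, i < n3 φ ∧ y = 2 * i + 1 := by
  unfold occ at hy
  rw [List.mem_map] at hy
  obtain ⟨i, hi, rfl⟩ := hy
  rw [List.mem_filter, List.mem_range] at hi
  exact ⟨i, hi.1, rfl⟩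

theorem occ_nodup (φ : CNF) (g : ℕ) (s : Bool) : (occ φ g s).Nodup := by
  unfold occ
  refine List.Nodup.map (fun a b h => ?_) (List.Nodup.filter _ List.nodup_range)
  have : 2 * a + 1 = 2 * b + 1 := h
  omega

theorem top : S_TOP := by
  intro φ
  have h3 := n3_eq φ
  have hnx : ∀ i < n3 φ, nx i < n3 φ ∧ nx i ≠ i := by
    intro i hi
    unfold nx
    omega
  refine ⟨h3, fun i hi => ⟨(vr_mem φ i hi).1, (vr_mem φ i hi).2, (hnx i hi).1, (hnx i hi).2⟩,
    fun x hx => ?_⟩
  unfold NN at hx ⊢
  refine ⟨?_, ?_, ?_, ?_⟩
  · unfold topM
    split_ifs with h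
    · have := hnx (x / 2) h.2
      simp only [List.nodup_cons, List.mem_cons, List.not_mem_nil, not_or, or_false,
        not_false_eq_true, List.nodup_nil, and_true]
      omega
    · simp only [List.nodup_cons, List.mem_cons, List.not_mem_nil, or_false,
        not_false_eq_true, List.nodup_nil, and_true]
      omega
  · unfold topM
    split_ifs with h
    · have := hnx (x / 2) h.2
      intro y hy
      simp only [List.mem_cons, List.not_mem_nil, or_false] at hy
      omega
    · intro y hy
      simp only [List.mem_cons, List.not_mem_nil, or_false] at hy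
      omega
  · unfold topW
    split_ifs with h h'
    · simp only [List.nodup_cons, List.mem_cons, List.not_mem_nil, or_false,
        not_false_eq_true, List.nodup_nil, and_true]
      omega
    · have := vr_mem φ (x / 2) h
      simp only [List.nodup_cons, List.mem_cons, List.not_mem_nil, not_or, or_false,
        not_false_eq_true, List.nodup_nil, and_true]
      omega
    · rw [List.nodup_cons, List.nodup_append']
      refine ⟨?_, occ_nodup _ _ _, List.nodup_singleton _, ?_⟩
      · intro hmem
        rw [List.mem_append, List.mem_singleton] at hmem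
        rcases hmem with hmem | hmem
        · obtain ⟨i, hi, he⟩ := occ_mem _ _ _ _ hmem
          omega
        · omega
      · intro y hy hy'
        rw [List.mem_singleton] at hy'
        obtain ⟨i, hi, he⟩ := occ_mem _ _ _ _ hy
        omega
  · unfold topW
    split_ifs with h h'
    · intro y hy
      simp only [List.mem_cons, List.not_mem_nil, or_false] at hy
      omega
    · have := vr_mem φ (x / 2) h
      intro y hy
      simp only [List.mem_cons, List.not_mem_nil, or_false] at hy
      omega
    · intro y hy
      rw [List.mem_cons, List.mem_append, List.mem_singleton] at hy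
      rcases hy with hy | hy | hy
      · omega
      · obtain ⟨i, hi, he⟩ := occ_mem _ _ _ _ hy
        omega
      · omega

end Pool.Agent.W15.CES
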